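import Mathlib

/-! # Size and parity of the Euler numbers -/

open Finset

namespace Pool.Agent.R480.EU

/-- the recursion of the Euler numbers, `E k = E_{2k}` -/
structure IsEuler (E : ℕ → ℤ) : Prop where
  zero : E 0 = 1
  recur : ∀ n : ℕ, 1 ≤ n → ∑ k ∈ Finset.range (n + 1), ((Nat.choose (2 * n) (2 * k) : ℤ) * E k) = 0

lemma sum_choose_even (n : ℕ) (hn : 1 ≤ n) :
    ∑ k ∈ range (n + 1), (Nat.choose (2 * n) (2 * k) : ℤ) = 2 ^ (2 * n - 1) := by
  have h1 : ∑ i ∈ range (2 * n + 1), ((-1 : ℤ)) ^ i * (Nat.choose (2 * n) i : ℤ) = 0 := by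
    have := Int.alternating_sum_range_choose (n := 2 * n)
    rw [this, if_neg (by omega)]
  have h2 : ∑ i ∈ range (2 * n + 1), (Nat.choose (2 * n) i : ℤ) = 2 ^ (2 * n) := by
    exact_mod_cast Nat.sum_range_choose (2 * n)
  have key : ∀ f : ℕ → ℤ, ∀ n : ℕ, ∑ i ∈ range (2 * n + 1), ((1 : ℤ) + (-1) ^ i) * f i =
      2 * ∑ k ∈ range (n + 1), f (2 * k) := by
    intro f n
    induction n with
    | zero => simp
    | succ n ih =>
      rw [show 2 * (n + 1) + 1 = 2 * n + 1 + 1 + 1 by ring, sum_range_succ, sum_range_succ, ih,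
        sum_range_succ _ (n + 1)]
      have e1 : ((-1 : ℤ)) ^ (2 * n + 1) = -1 := Odd.neg_one_pow ⟨n, rfl⟩
      have e2 : ((-1 : ℤ)) ^ (2 * n + 1 + 1) = 1 := Even.neg_one_pow ⟨n + 1, by ring⟩
      rw [e1, e2, show 2 * n + 1 + 1 = 2 * (n + 1) by ring]
      ring
  have h3 := key (fun i => (Nat.choose (2 * n) i : ℤ)) n
  have h4 : ∑ i ∈ range (2 * n + 1), ((1 : ℤ) + (-1) ^ i) * (Nat.choose (2 * n) i : ℤ) = 2 ^ (2 * n) := by
    rw [sum_congr rfl (fun i _ => add_mul (1 : ℤ) ((-1) ^ i) _), sum_add_distrib, h1, add_zero]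
    simpa using h2
  have h5 : (2 : ℤ) ^ (2 * n) = 2 * 2 ^ (2 * n - 1) := by
    rw [← pow_succ']
    congr 1
    omega
  have h6 : 2 * ∑ k ∈ range (n + 1), (Nat.choose (2 * n) (2 * k) : ℤ) = 2 * 2 ^ (2 * n - 1) := by
    rw [← h5, ← h4]
    exact h3.symm
  linarith

/-- all Euler numbers are odd -/
lemma odd_euler {E : ℕ → ℤ} (hE : IsEuler E) : ∀ n, Odd (E n) := by
  intro n
  induction n using Nat.strong_induction_on with
  | _ n ih =>
    rcases Nat.eq_zero_or_pos n with rfl | hn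
    · rw [hE.zero]
      exact odd_one
    · have h1 := hE.recur n hn
      have h2 := sum_choose_even n hn
      have h3 : ∑ k ∈ range (n + 1), (Nat.choose (2 * n) (2 * k) : ℤ) * (E k - 1) =
          - 2 ^ (2 * n - 1) := by
        simp only [mul_sub, mul_one, sum_sub_distrib]
        rw [h1, h2]
        ring
      rw [sum_range_succ, Nat.choose_self] at h3
      have h4 : (2 : ℤ) ∣ ∑ k ∈ range n, (Nat.choose (2 * n) (2 * k) : ℤ) * (E k - 1) := by
        refine dvd_sum (fun k hk => ?_)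
        obtain ⟨z, hz⟩ := ih k (mem_range.1 hk)
        exact ⟨(Nat.choose (2 * n) (2 * k) : ℤ) * z, by rw [hz]; ring⟩
      have h5 : (2 : ℤ) ∣ 2 ^ (2 * n - 1) := dvd_pow_self _ (by omega)
      obtain ⟨a, ha⟩ := h4
      obtain ⟨b, hb⟩ := h5
      rw [ha, hb] at h3
      refine ⟨-b - a, ?_⟩
      push_cast at h3
      linarith

lemma sum_inv_fact (n : ℕ) : ∑ k ∈ range n, (1 : ℝ) / ((2 * (n - k)).factorial : ℝ) ≤ 1 := by
  have h1 : ∑ k ∈ range n, (1 : ℝ) / ((2 * (n - k)).factorial : ℝ) =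
      ∑ k ∈ range n, (1 : ℝ) / ((2 * (k + 1)).factorial : ℝ) := by
    rw [← Finset.sum_range_reflect (fun k => (1 : ℝ) / ((2 * (k + 1)).factorial : ℝ)) n]
    refine sum_congr rfl (fun k hk => ?_)
    rw [mem_range] at hk
    rw [show n - 1 - k + 1 = n - k by omega]
  rw [h1]
  have h2 : ∀ k : ℕ, (1 : ℝ) / ((2 * (k + 1)).factorial : ℝ) ≤ (1 / 2) ^ (k + 1) := by
    intro k
    have h3 : 2 ^ (k + 1) ≤ (2 * (k + 1)).factorial := by
      have h4 : ∀ k : ℕ, 2 ^ k ≤ (k + 1).factorial := by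
        intro k
        induction k with
        | zero => simp
        | succ k ih =>
          rw [Nat.factorial_succ, pow_succ, mul_comm]
          exact Nat.mul_le_mul (by omega) ih
      exact (h4 (k + 1)).trans (Nat.factorial_le (by omega))
    rw [one_div_pow]
    refine one_div_le_one_div_of_le (by positivity) ?_
    exact_mod_cast h3
  refine (sum_le_sum (fun k _ => h2 k)).trans ?_
  have h5 : ∀ n : ℕ, ∑ k ∈ range n, ((1 : ℝ) / 2) ^ (k + 1) = 1 - (1 / 2) ^ n := by
    intro n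
    induction n with
    | zero => simp
    | succ n ih => rw [sum_range_succ, ih]; ring
  rw [h5]
  have : (0 : ℝ) ≤ (1 / 2) ^ n := by positivity
  linarith

/-- `|E_{2n}| ≤ (2n)!` -/
lemma abs_euler_le {E : ℕ → ℤ} (hE : IsEuler E) : ∀ n, |(E n : ℝ)| ≤ ((2 * n).factorial : ℝ) := by
  intro n
  induction n using Nat.strong_induction_on with
  | _ n ih =>
    rcases Nat.eq_zero_or_pos n with rfl | hn
    · rw [hE.zero]
      simp
    · have h1 := hE.recur n hn
      rw [sum_range_succ, Nat.choose_self] at h1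
      have h2 : (E n : ℝ) = - ∑ k ∈ range n, (Nat.choose (2 * n) (2 * k) : ℝ) * (E k : ℝ) := by
        have : E n = - ∑ k ∈ range n, (Nat.choose (2 * n) (2 * k) : ℤ) * E k := by
          push_cast at h1
          linarith
        rw [this]
        push_cast
        rfl
      rw [h2, abs_neg]
      refine (abs_sum_le_sum_abs _ _).trans ?_
      have h3 : ∀ k ∈ range n, |(Nat.choose (2 * n) (2 * k) : ℝ) * (E k : ℝ)| ≤
          ((2 * n).factorial : ℝ) * (1 / ((2 * (n - k)).factorial : ℝ)) := by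
        intro k hk
        rw [mem_range] at hk
        rw [abs_mul, Nat.abs_cast]
        refine (mul_le_mul_of_nonneg_left (ih k hk) (by positivity)).trans (le_of_eq ?_)
        have h4 := Nat.choose_mul_factorial_mul_factorial (show 2 * k ≤ 2 * n by omega)
        have h5 : 2 * n - 2 * k = 2 * (n - k) := by omega
        rw [h5] at h4
        have h6 : ((2 * (n - k)).factorial : ℝ) ≠ 0 := by positivity
        rw [mul_one_div, eq_div_iff h6]
        exact_mod_cast h4
      refine (sum_le_sum h3).trans ?_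
      rw [← mul_sum]
      have := mul_le_mul_of_nonneg_left (sum_inv_fact n)
        (show (0 : ℝ) ≤ ((2 * n).factorial : ℝ) by positivity)
      linarith

lemma natAbs_ne_zero {E : ℕ → ℤ} (hE : IsEuler E) (n : ℕ) : (E n).natAbs ≠ 0 := by
  rw [Ne, Int.natAbs_eq_zero]
  intro h
  have := odd_euler hE n
  rw [h] at this
  exact absurd this (by decide)

lemma log_natAbs_le {E : ℕ → ℤ} (hE : IsEuler E) (m : ℕ) (_hm : m ≠ 0) :
    Real.log ((E m).natAbs : ℕ) ≤ 2 * m * Real.log (2 * m) := by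
  have hpos : (0 : ℝ) < ((E m).natAbs : ℕ) := by
    exact_mod_cast Nat.pos_of_ne_zero (natAbs_ne_zero hE m)
  have h1 : (((E m).natAbs : ℕ) : ℝ) ≤ (2 * (m : ℝ)) ^ (2 * m) := by
    have h2 := abs_euler_le hE m
    have h3 : (((E m).natAbs : ℕ) : ℝ) = |(E m : ℝ)| := by
      rw [Nat.cast_natAbs, Int.cast_abs]
    rw [h3]
    refine h2.trans ?_
    have := Nat.factorial_le_pow (2 * m)
    exact_mod_cast this
  have := Real.log_le_log hpos h1
  rw [Real.log_pow] at this
  push_cast at this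
  exact this

end Pool.Agent.R480.EU
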