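import Pool.Agent.H332R2.IrrCount

/-! # Few indices with `p ∣ ν m` for almost all primes, for a sequence `ν` with `log (ν m) ≤ 2 m log (2 m)`

Version of `Pool.Agent.H332R2.IrrMain` for an arbitrary sequence of positive integers. -/

open Finset Filter Topology Real

namespace Pool.Agent.R480.EU

open Pool.Agent.H332R2 (rpow_tail pi_lower card_primes_dvd)

/-- number of `m ∈ [1,K]` with `p ∣ ν m` -/
def irr (nu : ℕ → ℕ) (p K : ℕ) : ℕ := ((Finset.Icc 1 K).filter (fun m => p ∣ nu m)).card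

lemma irr_le (nu : ℕ → ℕ) (p K : ℕ) : irr nu p K ≤ K := by
  unfold irr
  refine (Finset.card_filter_le _ _).trans ?_
  simp

/-- Count of primes dividing some numerator with index at most `K`. -/
lemma card_small {nu : ℕ → ℕ} (h0 : ∀ m, nu m ≠ 0) (Y : ℝ) (hY : 1 ≤ Y) (P : Finset ℕ) (K : ℕ)
    (hP : ∀ p ∈ P, p.Prime ∧ Y ≤ p ∧ ∃ m ∈ Finset.Icc 1 K, p ∣ nu m) :
    (P.card : ℝ) * Real.log Y ≤
      ∑ m ∈ Finset.Icc 1 K, Real.log (nu m) := by
  have hsub : P ⊆
      (Finset.Icc 1 K).biUnion (fun m => P.filter (fun p => p ∣ nu m)) := by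
    intro p hp
    obtain ⟨_, _, m, hm, hd⟩ := hP p hp
    rw [Finset.mem_biUnion]
    exact ⟨m, hm, Finset.mem_filter.mpr ⟨hp, hd⟩⟩
  have h1 : P.card ≤
      ∑ m ∈ Finset.Icc 1 K, (P.filter (fun p => p ∣ nu m)).card :=
    (Finset.card_le_card hsub).trans Finset.card_biUnion_le
  have hlog : 0 ≤ Real.log Y := Real.log_nonneg hY
  calc (P.card : ℝ) * Real.log Y
      ≤ (∑ m ∈ Finset.Icc 1 K, ((P.filter (fun p => p ∣ nu m)).card : ℝ)) * Real.log Y := by
        refine mul_le_mul_of_nonneg_right ?_ hlog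
        exact_mod_cast h1
    _ = ∑ m ∈ Finset.Icc 1 K, ((P.filter (fun p => p ∣ nu m)).card : ℝ) * Real.log Y := by
        rw [Finset.sum_mul]
    _ ≤ ∑ m ∈ Finset.Icc 1 K, Real.log (nu m) := by
        refine Finset.sum_le_sum (fun m _ => ?_)
        refine card_primes_dvd (nu m) (h0 m) Y hY _ (fun p hp => ?_)
        rw [Finset.mem_filter] at hp
        exact ⟨(hP p hp.1).1, (hP p hp.1).2.1, hp.2⟩

/-- weighted count -/
lemma card_weighted {nu : ℕ → ℕ} (h0 : ∀ m, nu m ≠ 0) (Y : ℝ) (hY : 1 ≤ Y) (P : Finset ℕ) (hP : ∀ p ∈ P, p.Prime ∧ Y ≤ p)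
    (K M : ℕ) (w : ℕ → ℝ) (hw : ∀ m, 0 ≤ w m) (c : ℝ)
    (hbad : ∀ p ∈ P, c ≤ ∑ m ∈ (Finset.Ioc K M).filter (fun m => p ∣ nu m), w m) :
    (P.card : ℝ) * c * Real.log Y ≤ ∑ m ∈ Finset.Ioc K M, w m * Real.log (nu m) := by
  have hlog : 0 ≤ Real.log Y := Real.log_nonneg hY
  have h1 : (P.card : ℝ) * c ≤ ∑ m ∈ Finset.Ioc K M, w m * ((P.filter (fun p => p ∣ nu m)).card : ℝ) := by
    calc (P.card : ℝ) * c = ∑ p ∈ P, c := by rw [Finset.sum_const, nsmul_eq_mul]
      _ ≤ ∑ p ∈ P, ∑ m ∈ (Finset.Ioc K M).filter (fun m => p ∣ nu m), w m :=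
          Finset.sum_le_sum hbad
      _ = ∑ p ∈ P, ∑ m ∈ Finset.Ioc K M, if p ∣ nu m then w m else 0 := by
          refine Finset.sum_congr rfl (fun p _ => ?_)
          rw [Finset.sum_filter]
      _ = ∑ m ∈ Finset.Ioc K M, ∑ p ∈ P, if p ∣ nu m then w m else 0 := Finset.sum_comm
      _ = ∑ m ∈ Finset.Ioc K M, w m * ((P.filter (fun p => p ∣ nu m)).card : ℝ) := by
          refine Finset.sum_congr rfl (fun m _ => ?_)
          rw [← Finset.sum_filter, Finset.sum_const, nsmul_eq_mul, mul_comm]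
  calc (P.card : ℝ) * c * Real.log Y
      ≤ (∑ m ∈ Finset.Ioc K M, w m * ((P.filter (fun p => p ∣ nu m)).card : ℝ)) * Real.log Y :=
        mul_le_mul_of_nonneg_right h1 hlog
    _ = ∑ m ∈ Finset.Ioc K M, w m * (((P.filter (fun p => p ∣ nu m)).card : ℝ) * Real.log Y) := by
        rw [Finset.sum_mul]
        refine Finset.sum_congr rfl (fun m _ => by ring)
    _ ≤ _ := by
        refine Finset.sum_le_sum (fun m _ => ?_)
        refine mul_le_mul_of_nonneg_left ?_ (hw m)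
        refine card_primes_dvd (nu m) (h0 m) Y hY _ (fun p hp => ?_)
        rw [Finset.mem_filter] at hp
        exact ⟨(hP p hp.1).1, (hP p hp.1).2, hp.2⟩



/-- the property shared by almost all primes -/
def good (nu : ℕ → ℕ) (η : ℝ) (ψ : ℕ → ℝ) (p : ℕ) : Prop :=
  ∀ K : ℕ, (irr nu p K : ℝ) ≤ ψ p * ((K : ℝ) ^ 2 * Real.log p / p) ^ (1 + η)

/-- a bad prime has a large weighted number of irregular indices -/
lemma bad_weight (nu : ℕ → ℕ) (η : ℝ) (hη : 0 < η) (ψ : ℕ → ℝ) (T : ℝ) (hT : 1 ≤ T) (X : ℕ) (hX : 3 ≤ X)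
    (p : ℕ) (hp3 : 3 ≤ p) (hpX : p ≤ X) (hψ : T ≤ ψ p) (hbad : ¬ good nu η ψ p) (K1 : ℕ)
    (hK1 : ∀ m ∈ Finset.Icc 1 K1, ¬ p ∣ nu m) :
    T * (Real.log X / X) ^ (1 + η) ≤
      ∑ m ∈ (Finset.Ioc K1 X).filter (fun m => p ∣ nu m), (m : ℝ) ^ (-(2 * (1 + η))) := by
  unfold good at hbad
  push Not at hbad
  obtain ⟨K, hK⟩ := hbad
  have hX0 : (0 : ℝ) < X := by positivity
  have hX3 : (3 : ℝ) ≤ X := by exact_mod_cast hX
  have hp0 : (0 : ℝ) < p := by positivity
  have hp3' : (3 : ℝ) ≤ p := by exact_mod_cast hp3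
  have he : Real.exp 1 ≤ 3 := by
    have := Real.exp_one_lt_d9; linarith
  have hlogX : 1 ≤ Real.log X := by
    rw [Real.le_log_iff_exp_le hX0]; linarith
  have hlogp : 1 ≤ Real.log p := by
    rw [Real.le_log_iff_exp_le hp0]; linarith
  have hanti : Real.log X / X ≤ Real.log p / p := by
    refine Real.log_div_self_antitoneOn ?_ ?_ ?_
    · change Real.exp 1 ≤ (p : ℝ); linarith
    · change Real.exp 1 ≤ (X : ℝ); linarith
    · exact_mod_cast hpX
  have hq0 : 0 ≤ Real.log X / X := by positivity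
  -- transfer to X
  have hK' : T * ((K : ℝ) ^ 2 * (Real.log X / X)) ^ (1 + η) < irr nu p K := by
    refine lt_of_le_of_lt ?_ hK
    have h1 : ((K : ℝ) ^ 2 * (Real.log X / X)) ^ (1 + η) ≤ ((K : ℝ) ^ 2 * Real.log p / p) ^ (1 + η) := by
      refine Real.rpow_le_rpow (by positivity) ?_ (by linarith)
      rw [mul_div_assoc]
      exact mul_le_mul_of_nonneg_left hanti (by positivity)
    have h2 : 0 ≤ ((K : ℝ) ^ 2 * (Real.log X / X)) ^ (1 + η) := by positivity
    exact mul_le_mul hψ h1 h2 (by linarith)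
  -- K is at most X
  have hKX : K ≤ X := by
    by_contra hcon
    have hcon' : (X : ℝ) ≤ K := by exact_mod_cast (by omega : X ≤ K)
    have hKpos : (0 : ℝ) < K := by linarith
    have h1 : (K : ℝ) ≤ (K : ℝ) ^ 2 * (Real.log X / X) := by
      have h3 : 1 ≤ (K : ℝ) / X := by rw [le_div_iff₀ hX0]; linarith
      have h4 : (K : ℝ) ^ 2 * (Real.log X / X) = K * ((K / X) * Real.log X) := by ring
      rw [h4]
      have h5 : 1 ≤ ((K : ℝ) / X) * Real.log X := by nlinarith
      nlinarith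
    have h2 : (K : ℝ) ^ 2 * (Real.log X / X) ≤ ((K : ℝ) ^ 2 * (Real.log X / X)) ^ (1 + η) := by
      have hbase : 1 ≤ (K : ℝ) ^ 2 * (Real.log X / X) := by linarith
      calc (K : ℝ) ^ 2 * (Real.log X / X) = ((K : ℝ) ^ 2 * (Real.log X / X)) ^ (1 : ℝ) := by
            rw [Real.rpow_one]
        _ ≤ _ := Real.rpow_le_rpow_of_exponent_le hbase (by linarith)
    have h6 : (irr nu p K : ℝ) ≤ K := by exact_mod_cast irr_le nu p K
    nlinarith
  have hKpos : 0 < K := by
    rcases Nat.eq_zero_or_pos K with h0 | h0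
    · exfalso
      subst h0
      have h6 : (irr nu p 0 : ℝ) ≤ (0 : ℕ) := by exact_mod_cast irr_le nu p 0
      have h7 : 0 ≤ T * (((0 : ℕ) : ℝ) ^ 2 * (Real.log X / X)) ^ (1 + η) := by positivity
      simp only [Nat.cast_zero] at h6 h7 hK'
      linarith
    · exact h0
  have hKr : (0 : ℝ) < K := by exact_mod_cast hKpos
  -- weights
  have hcard : (irr nu p K) = ((Finset.Ioc K1 K).filter (fun m => p ∣ nu m)).card := by
    unfold irr
    congr 1
    ext m
    simp only [Finset.mem_filter, Finset.mem_Icc, Finset.mem_Ioc]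
    constructor
    · rintro ⟨⟨h1, h2⟩, h3⟩
      refine ⟨⟨?_, h2⟩, h3⟩
      by_contra hcon
      exact hK1 m (Finset.mem_Icc.mpr ⟨h1, by omega⟩) h3
    · rintro ⟨⟨h1, h2⟩, h3⟩
      exact ⟨⟨by omega, h2⟩, h3⟩
  have hsub : (Finset.Ioc K1 K).filter (fun m => p ∣ nu m) ⊆ (Finset.Ioc K1 X).filter (fun m => p ∣ nu m) := by
    refine Finset.filter_subset_filter _ (Finset.Ioc_subset_Ioc_right hKX)
  have hsum : (irr nu p K : ℝ) * (K : ℝ) ^ (-(2 * (1 + η))) ≤
      ∑ m ∈ (Finset.Ioc K1 X).filter (fun m => p ∣ nu m), (m : ℝ) ^ (-(2 * (1 + η))) := by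
    calc (irr nu p K : ℝ) * (K : ℝ) ^ (-(2 * (1 + η)))
        = ∑ m ∈ (Finset.Ioc K1 K).filter (fun m => p ∣ nu m), (K : ℝ) ^ (-(2 * (1 + η))) := by
          rw [Finset.sum_const, nsmul_eq_mul, hcard]
      _ ≤ ∑ m ∈ (Finset.Ioc K1 K).filter (fun m => p ∣ nu m), (m : ℝ) ^ (-(2 * (1 + η))) := by
          refine Finset.sum_le_sum (fun m hm => ?_)
          rw [Finset.mem_filter, Finset.mem_Ioc] at hm
          have hm0 : (0 : ℝ) < m := by exact_mod_cast (by omega : 0 < m)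
          refine Real.rpow_le_rpow_of_nonpos hm0 ?_ (by linarith)
          exact_mod_cast hm.1.2
      _ ≤ _ := Finset.sum_le_sum_of_subset_of_nonneg hsub (fun m _ _ => by positivity)
  refine le_trans ?_ hsum
  have hpowK : 0 < (K : ℝ) ^ (-(2 * (1 + η))) := Real.rpow_pos_of_pos hKr _
  have h8 := mul_le_mul_of_nonneg_right hK'.le hpowK.le
  refine le_trans (le_of_eq ?_) h8
  rw [Real.mul_rpow (by positivity) hq0]
  have h9 : ((K : ℝ) ^ 2) ^ (1 + η) = (K : ℝ) ^ (2 * (1 + η)) := by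
    rw [← Real.rpow_natCast, ← Real.rpow_mul hKr.le]; norm_num
  rw [h9, Real.rpow_neg hKr.le]
  have h10 : (K : ℝ) ^ (2 * (1 + η)) ≠ 0 := (Real.rpow_pos_of_pos hKr _).ne'
  field_simp


set_option maxHeartbeats 1000000 in
lemma few_bad {nu : ℕ → ℕ} (h0 : ∀ m, nu m ≠ 0)
    (log_nu_le : ∀ m : ℕ, m ≠ 0 → Real.log (nu m) ≤ 2 * m * Real.log (2 * m)) (η : ℝ) (hη : 0 < η) (ψ : ℕ → ℝ) (hψ : Tendsto ψ atTop atTop) (ε : ℝ) (hε : 0 < ε)
    (B : ℕ → Finset ℕ) (hB : ∀ X, ∀ p ∈ B X, p.Prime ∧ p ≤ X ∧ ¬ good nu η ψ p) :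
    ∀ᶠ X : ℕ in atTop, ((B X).card : ℝ) ≤
      ε * (((Finset.range (X + 1)).filter Nat.Prime).card : ℝ) := by
  classical
  set κ : ℝ := min (1 / 2) (ε / 24) with hκ
  have hκ0 : 0 < κ := by positivity
  have hκ1 : κ ≤ 1 / 2 := min_le_left _ _
  have hκ2 : κ ^ 2 ≤ ε / 24 := by
    have : κ ≤ ε / 24 := min_le_right _ _
    nlinarith
  set C0 : ℝ := (4 / η) * (κ / 2) ^ (-(2 * η)) with hC0
  have hC0pos : 0 < C0 := by positivity
  set T : ℝ := max 1 (C0 * (6 / ε)) with hT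
  have hT1 : 1 ≤ T := le_max_left _ _
  have hT2 : C0 * (6 / ε) ≤ T := le_max_right _ _
  obtain ⟨P0, hP0⟩ := (tendsto_atTop.mp hψ T).exists_forall_of_atTop
  -- limits
  have hR : Tendsto (fun X : ℕ => Real.sqrt ((X : ℝ) / Real.log X)) atTop atTop := by
    refine Real.tendsto_sqrt_atTop.comp ?_
    have h1 : Tendsto (fun x : ℝ => x / Real.log x) atTop atTop := by
      have h2 : Tendsto (fun x : ℝ => Real.log x / x) atTop (𝓝[>] 0) := by
        rw [tendsto_nhdsWithin_iff]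
        constructor
        · have := Real.tendsto_pow_log_div_mul_add_atTop 1 0 1 one_ne_zero
          simpa using this
        · filter_upwards [eventually_gt_atTop 1] with x hx
          have : 0 < Real.log x := Real.log_pos hx
          have hx0 : 0 < x := by linarith
          exact div_pos this hx0
      have := h2.inv_tendsto_nhdsGT_zero
      refine this.congr (fun x => ?_)
      simp
    exact h1.comp tendsto_natCast_atTop_atTop
  have hE4 : ∀ᶠ X : ℕ in atTop, 2 / κ ≤ Real.sqrt ((X : ℝ) / Real.log X) :=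
    hR.eventually_ge_atTop _
  have hE2 : ∀ᶠ X : ℕ in atTop, Real.sqrt X + 1 ≤ (ε / 3) * ((X : ℝ) / (2 * Real.log X)) := by
    have h1 : Tendsto (fun X : ℕ => Real.log X * (Real.sqrt X + 1) / X) atTop (𝓝 0) := by
      have h2 : Tendsto (fun x : ℝ => Real.log x / x ^ (1 / 2 : ℝ)) atTop (𝓝 0) :=
        (isLittleO_log_rpow_atTop (by norm_num : (0 : ℝ) < 1 / 2)).tendsto_div_nhds_zero
      have h3 : Tendsto (fun x : ℝ => Real.log x / x) atTop (𝓝 0) := by
        have := Real.tendsto_pow_log_div_mul_add_atTop 1 0 1 one_ne_zero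
        simpa using this
      have h4 := (h2.add h3).comp tendsto_natCast_atTop_atTop (α := ℕ)
      rw [add_zero] at h4
      refine h4.congr' ?_
      filter_upwards [eventually_ge_atTop 1] with X hX
      have hX0 : (0 : ℝ) < X := by exact_mod_cast hX
      have hs : Real.sqrt X * Real.sqrt X = X := Real.mul_self_sqrt hX0.le
      have hs0 : 0 < Real.sqrt X := Real.sqrt_pos.mpr hX0
      simp only [Function.comp_apply]
      rw [← Real.sqrt_eq_rpow]
      rw [mul_add, mul_one, add_div]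
      congr 1
      rw [div_eq_div_iff hs0.ne' hX0.ne', mul_assoc, hs]
    have h5 : ∀ᶠ X : ℕ in atTop, Real.log X * (Real.sqrt X + 1) / X < ε / 6 :=
      h1.eventually (gt_mem_nhds (by positivity))
    filter_upwards [h5, eventually_ge_atTop 2] with X h6 hX
    have hX0 : (0 : ℝ) < X := by positivity
    have hlog : 0 < Real.log X := Real.log_pos (by exact_mod_cast (by omega : 1 < X))
    rw [div_lt_iff₀ hX0] at h6
    have h7 : (ε / 3) * ((X : ℝ) / (2 * Real.log X)) = (ε / 6 * X) / Real.log X := by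
      field_simp; ring
    rw [h7, le_div_iff₀ hlog]
    linarith
  filter_upwards [pi_lower, hE2, hE4, eventually_ge_atTop ((max P0 3 + 1) ^ 2), eventually_ge_atTop 3]
    with X hpi hsq hR4 hXP hX3
  have hX0 : (0 : ℝ) < X := by positivity
  have hX3' : (3 : ℝ) ≤ X := by exact_mod_cast hX3
  have hL1 : 1 ≤ Real.log X := by
    rw [Real.le_log_iff_exp_le hX0]
    have := Real.exp_one_lt_d9; linarith
  set L : ℝ := Real.log X with hL
  have hL0 : 0 < L := by linarith
  set R : ℝ := Real.sqrt ((X : ℝ) / L) with hRdef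
  have hR2 : R ^ 2 = X / L := Real.sq_sqrt (by positivity)
  have hRpos : 0 < R := lt_of_lt_of_le (by positivity) hR4
  set K1 : ℕ := ⌊κ * R⌋₊ with hK1
  have hK1le : (K1 : ℝ) ≤ κ * R := Nat.floor_le (by positivity)
  have hκR : 2 ≤ κ * R := by
    rw [div_le_iff₀ hκ0] at hR4; linarith
  have hK1ge : κ * R / 2 ≤ K1 := by
    have := Nat.lt_floor_add_one (κ * R)
    rw [← hK1] at this
    linarith
  have hK1one : 1 ≤ K1 := by
    rw [hK1]; exact Nat.le_floor (by push_cast; linarith)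
  have hRX : R ≤ X := by
    rw [hRdef]
    rw [Real.sqrt_le_left hX0.le]
    rw [div_le_iff₀ hL0]
    nlinarith
  have h2K1X : 2 * (K1 : ℝ) ≤ X := by nlinarith
  have hK1X : 2 * K1 ≤ X := by exact_mod_cast h2K1X
  set Y : ℝ := Real.sqrt X with hY
  have hYge : ((max P0 3 + 1 : ℕ) : ℝ) ≤ Y := by
    rw [hY]
    apply Real.le_sqrt_of_sq_le
    exact_mod_cast hXP
  have hY1 : 1 ≤ Y := by
    refine le_trans ?_ hYge
    push_cast
    have : (0 : ℝ) ≤ max (P0 : ℝ) 3 := le_trans (by norm_num) (le_max_right _ _)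
    linarith
  have hlogY : Real.log Y = L / 2 := by rw [hY, Real.log_sqrt hX0.le]
  -- split of the bad set
  set P1 := (B X).filter (fun p : ℕ => (p : ℝ) < Y) with hP1
  set P2 := (B X).filter (fun p : ℕ => Y ≤ (p : ℝ) ∧ ∃ m ∈ Finset.Icc 1 K1, p ∣ nu m) with hP2
  set P3 := (B X).filter (fun p : ℕ => Y ≤ (p : ℝ) ∧ ¬ ∃ m ∈ Finset.Icc 1 K1, p ∣ nu m) with hP3
  have hsplit : (B X).card ≤ P1.card + P2.card + P3.card := by
    have hsub : B X ⊆ P1 ∪ P2 ∪ P3 := by
      intro p hp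
      simp only [Finset.mem_union, hP1, hP2, hP3, Finset.mem_filter]
      by_cases h1 : (p : ℝ) < Y
      · left; left; exact ⟨hp, h1⟩
      · by_cases h2 : ∃ m ∈ Finset.Icc 1 K1, p ∣ nu m
        · left; right; exact ⟨hp, not_lt.mp h1, h2⟩
        · right; exact ⟨hp, not_lt.mp h1, h2⟩
    refine (Finset.card_le_card hsub).trans ?_
    refine (Finset.card_union_le _ _).trans ?_
    exact Nat.add_le_add_right (Finset.card_union_le _ _) _
  have hc1 : (P1.card : ℝ) ≤ (ε / 3) * ((X : ℝ) / (2 * L)) := by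
    refine le_trans ?_ hsq
    have hsub : P1 ⊆ Finset.range ⌈Y⌉₊ := by
      intro p hp
      simp only [hP1, Finset.mem_filter] at hp
      rw [Finset.mem_range]
      exact Nat.lt_ceil.mpr hp.2
    have := Finset.card_le_card hsub
    rw [Finset.card_range] at this
    have h2 : ((⌈Y⌉₊ : ℕ) : ℝ) < Y + 1 := Nat.ceil_lt_add_one (by linarith)
    have h3 : (P1.card : ℝ) ≤ (⌈Y⌉₊ : ℕ) := by exact_mod_cast this
    linarith
  have hlog2m : ∀ m : ℕ, 1 ≤ m → m ≤ X → Real.log (2 * m) ≤ 2 * L := by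
    intro m hm hmX
    have h1 : (2 * (m : ℝ)) ≤ (X : ℝ) ^ 2 := by
      have : (m : ℝ) ≤ X := by exact_mod_cast hmX
      nlinarith
    have h0 : (0 : ℝ) < 2 * m := by
      have : (1 : ℝ) ≤ m := by exact_mod_cast hm
      linarith
    have := Real.log_le_log h0 h1
    rw [Real.log_pow] at this
    push_cast at this
    exact this
  have hc2 : (P2.card : ℝ) ≤ (ε / 6) * (X / L) := by
    have h1 := card_small h0 Y hY1 P2 K1 (fun p hp => by
      simp only [hP2, Finset.mem_filter] at hp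
      exact ⟨(hB X p hp.1).1, hp.2.1, hp.2.2⟩)
    have h2 : ∑ m ∈ Finset.Icc 1 K1, Real.log (nu m) ≤ ∑ m ∈ Finset.Icc 1 K1, 2 * K1 * L := by
      refine Finset.sum_le_sum (fun m hm => ?_)
      rw [Finset.mem_Icc] at hm
      refine (log_nu_le m (by omega)).trans ?_
      have h3 : (m : ℝ) ≤ K1 := by exact_mod_cast hm.2
      have h4 : Real.log (2 * m) ≤ L := by
        have h0 : (1 : ℝ) ≤ m := by exact_mod_cast hm.1
        exact Real.log_le_log (by linarith) (by linarith)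
      have h5 : 0 ≤ Real.log (2 * m) := Real.log_nonneg (by
        have h0 : (1 : ℝ) ≤ m := by exact_mod_cast hm.1
        linarith)
      exact mul_le_mul (by linarith) h4 h5 (by positivity)
    rw [Finset.sum_const, nsmul_eq_mul, Nat.card_Icc, Nat.add_sub_cancel] at h2
    rw [hlogY] at h1
    have h6 : (P2.card : ℝ) * (L / 2) ≤ 2 * K1 ^ 2 * L := by nlinarith
    have h7 : (P2.card : ℝ) ≤ 4 * K1 ^ 2 := by
      have : (P2.card : ℝ) * L ≤ (4 * K1 ^ 2) * L := by linarith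
      exact le_of_mul_le_mul_right this hL0
    have h8 : (K1 : ℝ) ^ 2 ≤ κ ^ 2 * (X / L) := by
      rw [← hR2, ← mul_pow]
      exact pow_le_pow_left₀ (by positivity) hK1le 2
    have h9 : κ ^ 2 * (X / L) ≤ (ε / 24) * (X / L) :=
      mul_le_mul_of_nonneg_right hκ2 (by positivity)
    linarith
  have hc3 : (P3.card : ℝ) ≤ (ε / 6) * (X / L) := by
    have h1 := card_weighted h0 Y hY1 P3 (fun p hp => by
      simp only [hP3, Finset.mem_filter] at hp
      exact ⟨(hB X p hp.1).1, hp.2.1⟩) K1 X (fun m => (m : ℝ) ^ (-(2 * (1 + η)))) (fun m => by positivity)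
      (T * (L / X) ^ (1 + η)) (fun p hp => by
        simp only [hP3, Finset.mem_filter] at hp
        have hpY : ((max P0 3 + 1 : ℕ) : ℝ) ≤ p := hYge.trans hp.2.1
        have hpY' : max P0 3 + 1 ≤ p := by exact_mod_cast hpY
        have hp3 : 3 ≤ p := by
          have := le_max_right P0 3; omega
        have hpP0 : P0 ≤ p := by
          have := le_max_left P0 3; omega
        refine bad_weight nu η hη ψ T hT1 X hX3 p hp3 (hB X p hp.1).2.1 (hP0 p hpP0) (hB X p hp.1).2.2 K1 ?_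
        intro m hm hd
        exact hp.2.2 ⟨m, hm, hd⟩)
    have h2 : ∑ m ∈ Finset.Ioc K1 X, (m : ℝ) ^ (-(2 * (1 + η))) * Real.log (nu m) ≤
        ∑ m ∈ Finset.Ioc K1 X, (4 * L) * (m : ℝ) ^ (-(1 + 2 * η)) := by
      refine Finset.sum_le_sum (fun m hm => ?_)
      rw [Finset.mem_Ioc] at hm
      have hm1 : 1 ≤ m := by omega
      have hm0 : (0 : ℝ) < m := by exact_mod_cast hm1
      have h3 := log_nu_le m (by omega)
      have h4 := hlog2m m hm1 hm.2
      have h5 : Real.log (nu m) ≤ 4 * L * m := by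
        refine h3.trans ?_
        have : 2 * (m : ℝ) * Real.log (2 * m) ≤ 2 * m * (2 * L) :=
          mul_le_mul_of_nonneg_left h4 (by positivity)
        linarith
      have h6 : (m : ℝ) ^ (-(1 + 2 * η)) = (m : ℝ) ^ (-(2 * (1 + η))) * m := by
        have : (m : ℝ) ^ (-(2 * (1 + η))) * m = (m : ℝ) ^ (-(2 * (1 + η))) * (m : ℝ) ^ (1 : ℝ) := by
          rw [Real.rpow_one]
        rw [this, ← Real.rpow_add hm0]
        congr 1; ring
      rw [h6]
      have h7 : 0 ≤ (m : ℝ) ^ (-(2 * (1 + η))) := by positivity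
      have := mul_le_mul_of_nonneg_left h5 h7
      linarith
    rw [← Finset.mul_sum] at h2
    have h3 := rpow_tail (2 * η) (by linarith) K1 X hK1one
    rw [hlogY] at h1
    have h4 : (P3.card : ℝ) * (T * (L / X) ^ (1 + η)) * (L / 2) ≤
        (4 * L) * ((1 / (2 * η)) * (K1 : ℝ) ^ (-(2 * η))) :=
      h1.trans (h2.trans (mul_le_mul_of_nonneg_left h3 (by positivity)))
    have h5 : (K1 : ℝ) ^ (-(2 * η)) ≤ (κ / 2) ^ (-(2 * η)) * (X / L) ^ (-η) := by
      have h6 : (K1 : ℝ) ^ (-(2 * η)) ≤ (κ * R / 2) ^ (-(2 * η)) :=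
        Real.rpow_le_rpow_of_nonpos (by positivity) hK1ge (by linarith)
      refine h6.trans (le_of_eq ?_)
      have h7 : κ * R / 2 = (κ / 2) * R := by ring
      rw [h7, Real.mul_rpow (by positivity) hRpos.le]
      congr 1
      rw [← hR2, ← Real.rpow_natCast, ← Real.rpow_mul hRpos.le]
      congr 1
      push_cast; ring
    -- conclude
    have hXL : 0 < (X : ℝ) / L := by positivity
    have h8 : (L / X) ^ (1 + η) = ((X : ℝ) / L) ^ (-(1 + η)) := by
      rw [Real.rpow_neg hXL.le, ← Real.inv_rpow hXL.le, inv_div]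
    have h9 : ((X : ℝ) / L) ^ (-(1 + η)) = ((X : ℝ) / L) ^ (-η) * (X / L)⁻¹ := by
      rw [neg_add, add_comm, Real.rpow_add hXL, Real.rpow_neg_one]
    rw [h8, h9] at h4
    set Z := ((X : ℝ) / L) ^ (-η) with hZ
    have hZpos : 0 < Z := Real.rpow_pos_of_pos hXL _
    have h10 : (P3.card : ℝ) * T * (X / L)⁻¹ ≤ C0 := by
      have h11 : (P3.card : ℝ) * (T * (Z * (X / L)⁻¹)) * (L / 2) ≤
          (4 * L) * ((1 / (2 * η)) * ((κ / 2) ^ (-(2 * η)) * Z)) := by
        refine h4.trans ?_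
        refine mul_le_mul_of_nonneg_left ?_ (by positivity)
        exact mul_le_mul_of_nonneg_left h5 (by positivity)
      have h12 : ((P3.card : ℝ) * T * (X / L)⁻¹) * (Z * (L / 2)) ≤ C0 * (Z * (L / 2)) := by
        have e1 : ((P3.card : ℝ) * T * (X / L)⁻¹) * (Z * (L / 2)) =
          (P3.card : ℝ) * (T * (Z * (X / L)⁻¹)) * (L / 2) := by ring
        have e2 : C0 * (Z * (L / 2)) = (4 * L) * ((1 / (2 * η)) * ((κ / 2) ^ (-(2 * η)) * Z)) := by
          rw [hC0]; field_simp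
        rw [e1, e2]; exact h11
      exact le_of_mul_le_mul_right h12 (by positivity)
    have h13 : (P3.card : ℝ) * T ≤ C0 * (X / L) := by
      rw [← div_eq_mul_inv, div_le_iff₀ hXL] at h10
      exact h10
    have h14 : (P3.card : ℝ) * (C0 * (6 / ε)) ≤ C0 * (X / L) := by
      refine le_trans ?_ h13
      exact mul_le_mul_of_nonneg_left hT2 (by positivity)
    have h15 : (P3.card : ℝ) * (6 / ε) ≤ X / L := by
      have : C0 * ((P3.card : ℝ) * (6 / ε)) ≤ C0 * (X / L) := by linarith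
      exact le_of_mul_le_mul_left this hC0pos
    have h16 : (P3.card : ℝ) = (ε / 6) * ((P3.card : ℝ) * (6 / ε)) := by
      field_simp
    rw [h16]
    exact mul_le_mul_of_nonneg_left h15 (by positivity)
  have hfin : ((B X).card : ℝ) ≤ ε * ((X : ℝ) / (2 * L)) := by
    have h1 : ((B X).card : ℝ) ≤ P1.card + P2.card + P3.card := by exact_mod_cast hsplit
    have h2 : (X : ℝ) / L = 2 * (X / (2 * L)) := by field_simp
    rw [h2] at hc2 hc3
    linarith
  exact hfin.trans (mul_le_mul_of_nonneg_left hpi hε.le)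



end Pool.Agent.R480.EU
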